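import Pool.Agent.W626.AH.Defs

/-!
# Acylindrically hyperbolic marked groups: the statements of the parts
-/

set_option autoImplicit false

namespace Pool.Agent.W626.AH

open Pool.Agent.H67R3.RHDefs

/-- (LOX) ping-pong criterion -/
def S_lox : Prop := ∀ (G S : Type) [Group G] [MulAction G S] (d : S → S → ℝ),
  PD d → H1 d → Isom G d → ∀ (a b : G) (x : S) (c : ℝ), 0 < c →
    max (d x (a • x)) (d x (b • x)) + 1 + c ≤ d x ((a * b) • x) →
    max (d x (a • x)) (d x (b • x)) + 1 + c ≤ d x ((b * a) • x) → Lox d (a * b)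

/-- (JD) joint displacement -/
def S_jd : Prop := ∀ (G S : Type) [Group G] [MulAction G S] [Nonempty S] (d : S → S → ℝ),
  PD d → H1 d → Mid d → Isom G d → (∀ g : G, ¬ Lox d g) → ∀ A : Finset G,
    ∃ x : S, ∀ a ∈ A, d x (a • x) ≤ 13

/-- (EXL) existence of a loxodromic element -/
def S_exl : Prop := ∀ (G S : Type) [Group G] [MulAction G S] (d : S → S → ℝ),
  PD d → H1 d → Mid d → Isom G d → Acy G d → Unb G d → ∃ g : G, Lox d g

/-- (ONE) acylindricity at one scale implies acylindricity -/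
def S_one : Prop := ∀ (G S : Type) [Group G] [MulAction G S] (d : S → S → ℝ),
  PD d → H1 d → Mid d → Isom G d → ∀ (R : ℝ) (M : ℕ), AcyAt G d 7 R M → Acy G d

/-- (HM) the metric of the hull -/
def S_hm : Prop := ∀ (X : Type) [Nonempty X] (d : X → X → ℝ), PD d →
  (∀ (f g : Hull d) (x : X), |f.1 x - g.1 x| ≤ hd f g) ∧
  (∀ (f g : Hull d) (c : ℝ), (∀ x, f.1 x - g.1 x ≤ c) → hd f g ≤ c) ∧
  PD (hd : Hull d → Hull d → ℝ) ∧
  (∀ f g : Hull d, hd f g = 0 → f = g) ∧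
  (∀ x : X, ∃ e : Hull d, (∀ y, e.1 y = d x y) ∧ ∀ f : Hull d, hd f e = f.1 x)

/-- (HH) the hull is hyperbolic -/
def S_hh : Prop := ∀ (X : Type) [Nonempty X] (d : X → X → ℝ), PD d → H1 d →
  H1 (hd : Hull d → Hull d → ℝ)

/-- (RET) the retraction onto the hull -/
def S_ret : Prop := ∀ (X : Type) [Nonempty X] (d : X → X → ℝ), PD d →
  ∃ p : (X → ℝ) → (X → ℝ),
    (∀ f : X → ℝ, (∀ x y, d x y ≤ f x + f y) →
      (∀ x y, d x y ≤ p f x + p f y) ∧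
      ∀ x, ∀ ε : ℝ, 0 < ε → ∃ y, p f x + p f y < d x y + ε) ∧
    (∀ f : Hull d, p f.1 = f.1) ∧
    (∀ (f g : X → ℝ) (c : ℝ), (∀ x y, d x y ≤ f x + f y) → (∀ x y, d x y ≤ g x + g y) →
      (∀ x, |f x - g x| ≤ c) → ∀ x, |p f x - p g x| ≤ c)

/-- (GEO) the hull is geodesic -/
def S_geo : Prop := ∀ (X : Type) [Nonempty X] (d : X → X → ℝ), PD d →
  ∀ f g : Hull d, ∃ γ : ℝ → Hull d, γ 0 = f ∧ γ (hd f g) = g ∧
    ∀ s t : ℝ, 0 ≤ s → s ≤ t → t ≤ hd f g → hd (γ s) (γ t) = t - s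

/-- (ACT) the action on the hull -/
def S_act : Prop := ∀ (G : Type) [Group G] (ℓ : G → ℝ), PD (nd ℓ) →
  Isom G (hd : Hull (nd ℓ) → Hull (nd ℓ) → ℝ)

/-- (VUP) virtual distance is bounded by the distance in the hull -/
def S_vup : Prop := ∀ (X : Type) [Nonempty X] (d : X → X → ℝ), PD d → H1 d →
  ∀ (f h : Hull d) (x y x' y' : X), f.1 x + f.1 y ≤ d x y + 1 → h.1 x' + h.1 y' ≤ d x' y' + 1 →
    vd d (x, y, f.1 x, f.1 y) (x', y', h.1 x', h.1 y') ≤ hd f h ∧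
    hd f h ≤ vd d (x, y, f.1 x, f.1 y) (x', y', h.1 x', h.1 y') + 4

/-- (HAC) the action on the hull is acylindrical at the scale `7` -/
def S_hac : Prop := ∀ (G : Type) [Group G] (ℓ : G → ℝ) (R M : ℕ) (g : G) (q B : ℕ),
  GCond ℓ R M g q B → AcyAt G (hd : Hull (nd ℓ) → Hull (nd ℓ) → ℝ) 7 (R + 5) M

/-- an actual point near a virtual point -/
def Near {S : Type} (d : S → S → ℝ) (P : S) (p : S × S × ℝ × ℝ) : Prop :=
  |d P p.1 - p.2.2.1| ≤ 2 ∧ |d P p.2.1 - p.2.2.2| ≤ 2 ∧ d P p.1 + d P p.2.1 = d p.1 p.2.1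

/-- (VPA) virtual points of geodesic spaces are near actual points -/
def S_vpa : Prop := ∀ (S : Type) (d : S → S → ℝ), PD d → Mid d →
  ∀ p : S × S × ℝ × ℝ, VP d p → ∃ P : S, Near d P p

/-- (VPB) comparison of the distances -/
def S_vpb : Prop := ∀ (S : Type) (d : S → S → ℝ), PD d → H1 d →
  ∀ (p p' : S × S × ℝ × ℝ) (P P' : S), Near d P p → Near d P' p' →
    vd d p p' ≤ d P P' + 4 ∧ d P P' ≤ vd d p p' + 6

/-- (DAT) from actions to data -/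
def S_dat : Prop := ∀ (G S : Type) [Group G] [MulAction G S] (d : S → S → ℝ),
  PD d → H1 d → Mid d → Isom G d → Acy G d → Unb G d → ∀ s : S,
    ∃ (R M : ℕ) (g : G) (q B : ℕ), GCond (fun h : G => d s (h • s)) R M g q B

/-- (SCA) rescaling -/
def S_sca : Prop := ∀ (G : Type) [Group G] (n : ℕ) (a : Fin n → G),
  AcylindricallyHyperbolic G → ∃ (ℓ : G → ℝ) (R M : ℕ) (g : G) (q B : ℕ),
    GCond ℓ R M g q B ∧ (∀ h, 0 ≤ ℓ h) ∧ ∀ i, ℓ (a i) ≤ 1

/-- (BAC) from data to actions -/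
def S_bac : Prop := ∀ (G : Type) [Group G] (ℓ : G → ℝ) (R M : ℕ) (g : G) (q B : ℕ),
  GCond ℓ R M g q B → ∃ (S : Type) (_ : MetricSpace S) (_ : MulAction G S),
    (∀ (g : G) (x y : S), dist (g • x) (g • y) = dist x y) ∧
    IsGeodesic S ∧ IsHyperbolic S ∧ IsAcylindrical G S ∧
    ∃ x : S, ∀ B : ℝ, ∃ g : G, B < dist x (g • x)

/-- (FG) data on the free group and on the quotient -/
def S_fg : Prop := ∀ (n : ℕ) (N : Marked n) (R M q B : ℕ),
  (∃ (ℓ : FreeGroup (Fin n) ⧸ N.1 → ℝ) (g : FreeGroup (Fin n) ⧸ N.1),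
    GCond ℓ R M g q B ∧ (∀ h, 0 ≤ ℓ h) ∧
      ∀ i : Fin n, ℓ (QuotientGroup.mk (FreeGroup.of i)) ≤ 1) ↔
  ∃ (ℓ : FreeGroup (Fin n) → ℝ) (g : FreeGroup (Fin n)), ℓ ∈ box n ∧ FCond N.1 ℓ R M g q B

/-- (CLO) the condition is closed -/
def S_clo : Prop := ∀ (n R M q B : ℕ) (g : FreeGroup (Fin n)),
  IsClosed {z : Marked n × (FreeGroup (Fin n) → ℝ) | z.2 ∈ box n ∧ FCond z.1.1 z.2 R M g q B}

/-- (PRO) its projection is closed -/
def S_pro : Prop := ∀ (n R M q B : ℕ) (g : FreeGroup (Fin n)),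
  IsClosed {N : Marked n | ∃ ℓ : FreeGroup (Fin n) → ℝ, ℓ ∈ box n ∧ FCond N.1 ℓ R M g q B}

/-- (FIN) the final theorem -/
def S_fin : Prop := @MeasurableSet MarkedGroups (borel MarkedGroups) AHset

end Pool.Agent.W626.AH
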