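import Mathlib
import Pool.Agent.H67R3.RHDefs

/-!
# Acylindrically hyperbolic marked groups: definitions
-/

set_option autoImplicit false

namespace Pool.Agent.W626.AH

open Pool.Agent.H67R3.RHDefs

/-- Gromov hyperbolic metric spaces (four point condition). -/
def IsHyperbolic (S : Type) [MetricSpace S] : Prop :=
  ∃ δ : ℝ, ∀ x y z w : S,
    dist x y + dist z w ≤ max (dist x z + dist y w) (dist x w + dist y z) + δ

/-- Geodesic metric spaces: any two points are joined by an isometric copy of an interval. -/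
def IsGeodesic (S : Type) [MetricSpace S] : Prop :=
  ∀ x y : S, ∃ γ : ℝ → S, γ 0 = x ∧ γ (dist x y) = y ∧
    ∀ s t : ℝ, 0 ≤ s → s ≤ t → t ≤ dist x y → dist (γ s) (γ t) = t - s

/-- Acylindrical actions: for every `ε > 0` there are `R` and `N` such that for all points `x, y` at
distance at least `R` at most `N` elements of the group move both `x` and `y` by at most `ε`. -/
def IsAcylindrical (G S : Type) [Group G] [MetricSpace S] [MulAction G S] : Prop :=
  ∀ ε : ℝ, 0 < ε → ∃ (R : ℝ) (N : ℕ), ∀ x y : S, R ≤ dist x y →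
    {g : G | dist x (g • x) ≤ ε ∧ dist y (g • y) ≤ ε}.encard ≤ N

/-- Acylindrically hyperbolic groups: the group is not virtually cyclic and acts isometrically and
acylindrically, with an unbounded orbit, on a geodesic Gromov hyperbolic metric space. -/
def AcylindricallyHyperbolic (G : Type) [Group G] : Prop :=
  ¬ VirtuallyCyclic G ∧ ∃ (S : Type) (_ : MetricSpace S) (_ : MulAction G S),
    (∀ (g : G) (x y : S), dist (g • x) (g • y) = dist x y) ∧
    IsGeodesic S ∧ IsHyperbolic S ∧ IsAcylindrical G S ∧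
    ∃ x : S, ∀ B : ℝ, ∃ g : G, B < dist x (g • x)

/-- The set of acylindrically hyperbolic marked groups. -/
def AHset : Set MarkedGroups := {x | AcylindricallyHyperbolic (groupOf x)}

/-! ### Auxiliary notions: pseudo-distances given as functions -/

section aux

variable {X : Type}

/-- pseudo-distance functions -/
structure PD (d : X → X → ℝ) : Prop where
  self : ∀ x, d x x = 0
  symm : ∀ x y, d x y = d y x
  tri : ∀ x y z, d x z ≤ d x y + d y z

/-- four point condition with constant `1` -/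
def H1 (d : X → X → ℝ) : Prop := ∀ x y z w : X,
  d x y + d z w ≤ max (d x z + d y w) (d x w + d y z) + 1

/-- two points on a common geodesic -/
def Mid (d : X → X → ℝ) : Prop := ∀ (x y : X) (s t : ℝ), 0 ≤ s → s ≤ t → t ≤ d x y →
  ∃ p q : X, d x p = s ∧ d p y = d x y - s ∧ d x q = t ∧ d q y = d x y - t ∧ d p q = t - s

variable (G : Type) [Group G] [MulAction G X]

/-- the action preserves `d` -/
def Isom (d : X → X → ℝ) : Prop := ∀ (g : G) (x y : X), d (g • x) (g • y) = d x y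

/-- acylindricity at the scale `ε` -/
def AcyAt (d : X → X → ℝ) (ε R : ℝ) (N : ℕ) : Prop := ∀ x y : X, R ≤ d x y →
  {g : G | d x (g • x) ≤ ε ∧ d y (g • y) ≤ ε}.encard ≤ N

/-- acylindricity -/
def Acy (d : X → X → ℝ) : Prop := ∀ ε : ℝ, 0 < ε → ∃ (R : ℝ) (N : ℕ), AcyAt G d ε R N

/-- unbounded orbits -/
def Unb (d : X → X → ℝ) : Prop := ∃ x : X, ∀ B : ℝ, ∃ g : G, B < d x (g • x)

variable {G}

/-- loxodromic elements -/
def Lox (d : X → X → ℝ) (g : G) : Prop :=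
  ∃ (x : X) (c B : ℝ), 0 < c ∧ ∀ k : ℕ, c * k - B ≤ d x (g ^ k • x)

end aux

/-! ### The injective hull -/

section hull

variable {X : Type}

/-- The injective hull of `(X, d)`: the extremal functions. -/
def Hull (d : X → X → ℝ) : Type :=
  {f : X → ℝ // (∀ x y, d x y ≤ f x + f y) ∧ ∀ x, ∀ ε : ℝ, 0 < ε → ∃ y, f x + f y < d x y + ε}

/-- the distance of the injective hull -/
noncomputable def hd {d : X → X → ℝ} (f g : Hull d) : ℝ := ⨆ x, |f.1 x - g.1 x|

end hull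

/-! ### Norms on groups -/

section norm

variable {G : Type} [Group G]

/-- the left invariant distance of a norm -/
def nd (ℓ : G → ℝ) (u v : G) : ℝ := ℓ (u⁻¹ * v)

theorem nd_mul (ℓ : G → ℝ) (g u v : G) : nd ℓ (g * u) (g * v) = nd ℓ u v := by
  unfold nd; congr 1; group

/-- the action on the injective hull -/
def act (ℓ : G → ℝ) (g : G) (f : Hull (nd ℓ)) : Hull (nd ℓ) :=
  ⟨fun x => f.1 (g⁻¹ * x), fun x y => by rw [← nd_mul ℓ g⁻¹]; exact f.2.1 _ _,
    fun x ε hε => by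
      obtain ⟨y, hy⟩ := f.2.2 (g⁻¹ * x) ε hε
      refine ⟨g * y, ?_⟩
      show f.1 (g⁻¹ * x) + f.1 (g⁻¹ * (g * y)) < nd ℓ x (g * y) + ε
      rw [← nd_mul ℓ g⁻¹ x (g * y), inv_mul_cancel_left]
      exact hy⟩

/-- the action on the injective hull -/
instance instAct (ℓ : G → ℝ) : MulAction G (Hull (nd ℓ)) where
  smul := act ℓ
  one_smul f := by
    apply Subtype.ext
    funext x
    show f.1 (1⁻¹ * x) = f.1 x
    rw [inv_one, one_mul]
  mul_smul g h f := by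
    apply Subtype.ext
    funext x
    show f.1 ((g * h)⁻¹ * x) = f.1 (h⁻¹ * (g⁻¹ * x))
    rw [mul_inv_rev, mul_assoc]

theorem smul_val (ℓ : G → ℝ) (g : G) (f : Hull (nd ℓ)) (x : G) :
    (g • f).1 x = f.1 (g⁻¹ * x) := rfl

/-- the distance of virtual points; the virtual point `(x, y, s, t)` is the point on the geodesic
from `x` to `y` at the distances `s` and `t` from `x` and `y` -/
noncomputable def vd {X : Type} (d : X → X → ℝ) (p q : X × X × ℝ × ℝ) : ℝ :=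
  max (max (d p.1 q.1 - p.2.2.1 - q.2.2.1) (d p.1 q.2.1 - p.2.2.1 - q.2.2.2))
    (max (d p.2.1 q.1 - p.2.2.2 - q.2.2.1) (d p.2.1 q.2.1 - p.2.2.2 - q.2.2.2))

/-- virtual points -/
def VP {X : Type} (d : X → X → ℝ) (p : X × X × ℝ × ℝ) : Prop :=
  0 ≤ p.2.2.1 ∧ 0 ≤ p.2.2.2 ∧ |p.2.2.1 + p.2.2.2 - d p.1 p.2.1| < 2

/-- moving virtual points -/
def mv (a : G) (p : G × G × ℝ × ℝ) : G × G × ℝ × ℝ := (a * p.1, a * p.2.1, p.2.2.1, p.2.2.2)

/-- The data on a group. -/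
structure GCond (ℓ : G → ℝ) (R M : ℕ) (g : G) (q B : ℕ) : Prop where
  one : ℓ 1 = 0
  inv : ∀ w, ℓ w⁻¹ = ℓ w
  mul : ∀ u v, ℓ (u * v) ≤ ℓ u + ℓ v
  hyp : H1 (nd ℓ)
  acy : ∀ p p' : G × G × ℝ × ℝ, VP (nd ℓ) p → VP (nd ℓ) p' → (R : ℝ) < vd (nd ℓ) p p' →
    ∀ T : Finset G, M < T.card →
      ∃ a ∈ T, 8 ≤ vd (nd ℓ) p (mv a p) ∨ 8 ≤ vd (nd ℓ) p' (mv a p')
  lox : ∀ k : ℕ, (k : ℝ) ≤ (q + 1) * (ℓ (g ^ k) + B)

/-- The data on the free group relative to a normal subgroup. -/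
structure FCond {n : ℕ} (N : Subgroup (FreeGroup (Fin n))) (ℓ : FreeGroup (Fin n) → ℝ)
    (R M : ℕ) (g : FreeGroup (Fin n)) (q B : ℕ) : Prop where
  ker : ∀ w ∈ N, ℓ w = 0
  inv : ∀ w, ℓ w⁻¹ = ℓ w
  mul : ∀ u v, ℓ (u * v) ≤ ℓ u + ℓ v
  hyp : H1 (nd ℓ)
  acy : ∀ p p' : FreeGroup (Fin n) × FreeGroup (Fin n) × ℝ × ℝ,
    VP (nd ℓ) p → VP (nd ℓ) p' → (R : ℝ) < vd (nd ℓ) p p' →
    ∀ T : Finset (FreeGroup (Fin n)), M < T.card → (∀ a ∈ T, ∀ b ∈ T, a ≠ b → a⁻¹ * b ∉ N) →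
      ∃ a ∈ T, 8 ≤ vd (nd ℓ) p (mv a p) ∨ 8 ≤ vd (nd ℓ) p' (mv a p')
  lox : ∀ k : ℕ, (k : ℝ) ≤ (q + 1) * (ℓ (g ^ k) + B)

/-- The box of norms. -/
def box (n : ℕ) : Set (FreeGroup (Fin n) → ℝ) :=
  {ℓ | ∀ w, 0 ≤ ℓ w ∧ ℓ w ≤ w.norm}

end norm

end Pool.Agent.W626.AH
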